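import Mathlib

/-!
# Toric ideals of matching polytopes: definitions and a criterion for minimal generators
-/

namespace Pool.Agent.Q222.Mat

open MvPolynomial

/-- A set `M` of edges of `G` is a matching if no two distinct members share a vertex. -/
def IsMatching {V : Type*} (G : SimpleGraph V) (M : Set G.edgeSet) : Prop :=
  ∀ e ∈ M, ∀ f ∈ M, e ≠ f → ∀ v : V, ¬ (v ∈ (e : Sym2 V) ∧ v ∈ (f : Sym2 V))

/-- The incidence vector `ρ(M)` of a set of edges. -/
noncomputable def rho {V : Type*} {G : SimpleGraph V} (M : Set G.edgeSet) : G.edgeSet → ℝ :=
  M.indicator 1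

/-- The matching polytope: convex hull of the incidence vectors of all matchings of `G`. -/
def matchingPolytope {V : Type*} (G : SimpleGraph V) : Set (G.edgeSet → ℝ) :=
  convexHull ℝ {x | ∃ M : Set G.edgeSet, IsMatching G M ∧ x = rho M}

/-- The lattice points of `P ⊆ ℝ^ι` with nonnegative coordinates. -/
def latticePts {ι : Type*} (P : Set (ι → ℝ)) : Set (ι →₀ ℕ) :=
  {a | (fun i => (a i : ℝ)) ∈ P}

/-- The homomorphism `x_a ↦ t^a s`, from the polynomial ring with one variable for each lattice
point `a` of `P` to the polynomial ring in the variables `t_i` (`X (some i)`) and `s`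
(`X none`). -/
noncomputable def toricMap (K : Type*) [Field K] {ι : Type*} (P : Set (ι → ℝ)) :
    MvPolynomial (latticePts P) K →ₐ[K] MvPolynomial (Option ι) K :=
  aeval fun a => rename some (monomial (a : ι →₀ ℕ) (1 : K)) * X none

/-- The toric ideal `I_P` of `P`. -/
noncomputable def toricIdeal (K : Type*) [Field K] {ι : Type*} (P : Set (ι → ℝ)) :
    Ideal (MvPolynomial (latticePts P) K) :=
  RingHom.ker (toricMap K P)

/-- The exponent of the image of the monomial with exponent `u`. -/
noncomputable def expo {ι : Type*} {P : Set (ι → ℝ)} (u : latticePts P →₀ ℕ) : Option ι →₀ ℕ :=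
  u.sum fun a n => n • ((a : ι →₀ ℕ).mapDomain some + Finsupp.single none 1)

theorem expo_add {ι : Type*} {P : Set (ι → ℝ)} (u v : latticePts P →₀ ℕ) :
    expo (u + v) = expo u + expo v := by
  classical
  unfold expo
  rw [Finsupp.sum_add_index']
  · intro a; simp
  · intro a m n; rw [add_smul]

theorem toricMap_monomial (K : Type*) [Field K] {ι : Type*} (P : Set (ι → ℝ))
    (u : latticePts P →₀ ℕ) (c : K) :
    toricMap K P (monomial u c) = monomial (expo u) c := by
  classical
  rw [toricMap, aeval_monomial]
  have h : ∀ a : latticePts P, rename some (monomial (a : ι →₀ ℕ) (1 : K)) * X none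
      = monomial ((a : ι →₀ ℕ).mapDomain some + Finsupp.single none 1) (1 : K) := by
    intro a
    rw [rename_monomial, X, monomial_mul, one_mul]
  simp only [h, monomial_pow, one_pow]
  rw [expo, monomial_finsupp_sum_index, algebraMap_eq]

theorem expo_none {ι : Type*} {P : Set (ι → ℝ)} (u : latticePts P →₀ ℕ) :
    expo u none = u.sum fun _ n => n := by
  classical
  unfold expo
  rw [Finsupp.sum, Finsupp.finsetSum_apply, Finsupp.sum]
  refine Finset.sum_congr rfl fun a _ => ?_
  have : (Finsupp.mapDomain some (a : ι →₀ ℕ)) none = 0 := by
    apply Finsupp.mapDomain_of_notMem_range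
    simp
  simp [this]

theorem expo_some {ι : Type*} {P : Set (ι → ℝ)} (u : latticePts P →₀ ℕ) (i : ι) :
    expo u (some i) = u.sum fun a n => n * (a : ι →₀ ℕ) i := by
  classical
  unfold expo
  rw [Finsupp.sum, Finsupp.finsetSum_apply, Finsupp.sum]
  refine Finset.sum_congr rfl fun a _ => ?_
  have : (Finsupp.mapDomain some (a : ι →₀ ℕ)) (some i) = (a : ι →₀ ℕ) i := by
    apply Finsupp.mapDomain_apply
    exact Option.some_injective _
  simp [this]

/-- Criterion: if a fibre contains at least two elements and every element of the fibre other
than `u₁` has support disjoint from that of `u₁`, then every generating set of the toric ideal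
contains an element of degree at least the degree of `u₁`. -/
theorem generator_of_fibre (K : Type*) [Field K] {ι : Type*} (P : Set (ι → ℝ))
    (u₁ u₂ : latticePts P →₀ ℕ) (hne : u₂ ≠ u₁) (h₂ : expo u₂ = expo u₁)
    (hfib : ∀ u : latticePts P →₀ ℕ, expo u = expo u₁ → u = u₁ ∨ ∀ a, u a = 0 ∨ u₁ a = 0)
    (S : Set (MvPolynomial (latticePts P) K)) (hS : Ideal.span S = toricIdeal K P) :
    ∃ f ∈ S, (u₁.sum fun _ n => n) ≤ f.totalDegree := by
  classical
  by_contra hcon
  push Not at hcon
  -- the coefficient of `u₁` vanishes on the ideal generated by `S`
  have key : ∀ f ∈ S, ∀ g : MvPolynomial (latticePts P) K, coeff u₁ (g * f) = 0 := by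
    intro f hf g
    have hdeg := hcon f hf
    have hker : toricMap K P f = 0 := by
      have : f ∈ toricIdeal K P := by rw [← hS]; exact Ideal.subset_span hf
      exact this
    rw [coeff_mul]
    refine Finset.sum_eq_zero fun pq hpq => ?_
    obtain ⟨p, q⟩ := pq
    rw [Finset.HasAntidiagonal.mem_antidiagonal] at hpq
    simp only at hpq ⊢
    by_cases hp : p = 0
    · have hq : q = u₁ := by rw [← hpq, hp, zero_add]
      have : coeff q f = 0 := by
        apply coeff_eq_zero_of_totalDegree_lt
        rw [hq]
        exact hdeg
      rw [this, mul_zero]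
    · suffices hc : coeff q f = 0 by rw [hc, mul_zero]
      have hsum : coeff (expo q) (toricMap K P f) = coeff q f := by
        conv_lhs => rw [f.as_sum, map_sum, coeff_sum]
        simp only [toricMap_monomial, coeff_monomial]
        have hterm : ∀ u ∈ f.support, (if expo u = expo q then coeff u f else 0)
            = if u = q then coeff u f else 0 := by
          intro u _
          by_cases huq : u = q
          · simp [huq]
          · rw [if_neg huq, if_neg]
            intro hexp
            have h1 : expo (p + u) = expo u₁ := by
              rw [expo_add, hexp, ← expo_add, hpq]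
            rcases hfib _ h1 with h | h
            · apply huq
              rw [← hpq] at h
              exact add_left_cancel h
            · apply hp
              ext a
              rcases h a with h | h
              · simp only [Finsupp.add_apply] at h
                simp only [Finsupp.zero_apply]
                omega
              · rw [← hpq] at h
                simp only [Finsupp.add_apply] at h
                simp only [Finsupp.zero_apply]
                omega
        rw [Finset.sum_congr rfl hterm, Finset.sum_ite_eq']
        by_cases hq : q ∈ f.support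
        · rw [if_pos hq]
        · rw [if_neg hq]
          rw [mem_support_iff, not_not] at hq
          exact hq.symm
      rw [← hsum, hker, coeff_zero]
  have hall : ∀ f ∈ Ideal.span S, coeff u₁ f = 0 := by
    intro f hf
    have : ∀ g, coeff u₁ (g * f) = 0 := by
      refine Submodule.span_induction (p := fun f _ => ∀ g, coeff u₁ (g * f) = 0)
        ?_ ?_ ?_ ?_ hf
      · intro x hx g; exact key x hx g
      · intro g; simp
      · intro x y _ _ hx hy g
        rw [mul_add, coeff_add, hx, hy, add_zero]
      · intro a x _ hx g
        rw [smul_eq_mul, ← mul_assoc]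
        exact hx _
    simpa using this 1
  have hmem : (monomial u₁ (1 : K) - monomial u₂ 1) ∈ Ideal.span S := by
    rw [hS]
    change toricMap K P _ = 0
    rw [map_sub, toricMap_monomial, toricMap_monomial, h₂, sub_self]
  have := hall _ hmem
  rw [coeff_sub, coeff_monomial, coeff_monomial, if_pos rfl, if_neg hne, sub_zero] at this
  exact one_ne_zero this

end Pool.Agent.Q222.Mat
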